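import Pool.Agent.H78.Teich

namespace Pool.Agent.Results.MP_8dadf2_al.SixTerm

/-- Six pairwise distinct non-zero elements of the free ring on two generators, no one the negative of
another, whose Teichmueller vectors `(f, f^p, f^(p^2), ...)` are linearly dependent for every odd prime. -/
theorem result : ∃ f : Fin 6 → FreeAlgebra ℤ (Fin 2), Function.Injective f ∧ (∀ i, f i ≠ 0) ∧
    (∀ i j, i ≠ j → f i ≠ -f j) ∧
    ∀ p : ℕ, p.Prime → Odd p → ¬ LinearIndependent ℤ (fun (i : Fin 6) (k : ℕ) => f i ^ p ^ k) := by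
  obtain ⟨f, h1, h2, h3, h4⟩ := Pool.Agent.H78.Teich.main
  exact ⟨f, h1, h2, fun i j _ => h3 i j, fun p hp _ => h4 p hp.pos⟩

end Pool.Agent.Results.MP_8dadf2_al.SixTerm
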